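import Pool.Agent.R766.FV.Det

/-!
# Three favorite one-side sites of simple random walk

Almost surely there are infinitely many times at which exactly three sites are favorite one-side
sites of simple random walk.

Let `A` be the largest number of outward crossings of an edge of the positive half-line and `B` the
same for the negative half-line. If `A = B` at some time, then there are at least three favorite
one-side sites at that time: if the walk is at a position `≤ 0`, then the leading edge on the
positive side has been crossed equally often in both directions, so both its endpoints are favorite,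
and so is an endpoint of the leading edge on the negative side. The number of favorite one-side
sites is reset to one when the maximum increases and otherwise grows by at most one in a step, so it
is three at some time before. It remains to see that `A = B` infinitely often, which follows from a
reflection argument and from the fact that `A - B` is unbounded.
-/

set_option autoImplicit false

open MeasureTheory

namespace Pool.Agent.Results.MP_cfdc6e_pr.ThreeFavorite

/-- The walk with steps `X`, started at `0`. -/
def walk (X : ℕ → ℤ) (n : ℕ) : ℤ := ∑ k ∈ Finset.range n, X k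

/-- The number of upcrossings of `x` by time `n`: times `0 < k ≤ n` with `s (k - 1) = x - 1` and
`s k = x`. -/
def xiU (s : ℕ → ℤ) (x : ℤ) (n : ℕ) : ℕ :=
  ((Finset.Icc 1 n).filter (fun k => s (k - 1) = x - 1 ∧ s k = x)).card

/-- The number of downcrossings of `x` by time `n`: times `0 < k ≤ n` with `s (k - 1) = x + 1` and
`s k = x`. -/
def xiD (s : ℕ → ℤ) (x : ℤ) (n : ℕ) : ℕ :=
  ((Finset.Icc 1 n).filter (fun k => s (k - 1) = x + 1 ∧ s k = x)).card

/-- The maximum of the two. -/
def xiStar (s : ℕ → ℤ) (x : ℤ) (n : ℕ) : ℕ := max (xiU s x n) (xiD s x n)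

/-- The set of favorite one-side sites at time `n`. -/
def favorite (s : ℕ → ℤ) (n : ℕ) : Set ℤ := {x | ∀ y, xiStar s y n ≤ xiStar s x n}

/-- `X` is a sequence of independent random variables that are `1` or `-1` with probability `1/2`
each. -/
structure IsFairSteps {Ω : Type*} {_ : MeasurableSpace Ω} (P : Measure Ω) (X : ℕ → Ω → ℤ) :
    Prop where
  prob : IsProbabilityMeasure P
  meas : ∀ n, Measurable (X n)
  indep : ProbabilityTheory.iIndepFun X P
  plus : ∀ n, P {ω | X n ω = 1} = 1 / 2
  minus : ∀ n, P {ω | X n ω = -1} = 1 / 2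

open R766.FV

theorem count_succ (q : ℕ → Prop) [DecidablePred q] (n : ℕ) :
    ((Finset.Icc 1 (n + 1)).filter q).card =
      ((Finset.Icc 1 n).filter q).card + if q (n + 1) then 1 else 0 := by
  rw [← Finset.insert_Icc_right_eq_Icc_add_one (by omega : 1 ≤ n + 1), Finset.filter_insert]
  split_ifs with h1
  · rw [Finset.card_insert_of_notMem]
    simp
  · rfl

section

variable {x : ℕ → ℤ} {β : ℕ → Bool}

theorem S_eq (hpm : ∀ n, x n = 1 ∨ x n = -1) (hβ : ∀ n, β n = decide (x n = 1)) (n : ℕ) :
    S (hl β n) = walk x n := by
  induction n with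
  | zero => simp [hl, S, walk]
  | succ n ih =>
    show S (β n :: hl β n) = _
    rw [S_cons, ih, hβ n]
    unfold walk
    rw [Finset.sum_range_succ]
    rcases hpm n with h1 | h1 <;> simp [h1]

theorem up_eq (hpm : ∀ n, x n = 1 ∨ x n = -1) (hβ : ∀ n, β n = decide (x n = 1)) (y : ℤ)
    (n : ℕ) : up (hl β n) (y - 1) = xiU (walk x) y n := by
  induction n with
  | zero => simp [hl, up, xiU]
  | succ n ih =>
    show up (β n :: hl β n) (y - 1) = _
    unfold xiU
    rw [up_cons, ih, count_succ, S_eq hpm hβ n, hβ n, Nat.add_sub_cancel]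
    unfold xiU
    congr 1
    have h2 : walk x (n + 1) = walk x n + x n := by unfold walk; rw [Finset.sum_range_succ]
    have : (decide (x n = 1) = true ∧ walk x n = y - 1) ↔
        (walk x n = y - 1 ∧ walk x (n + 1) = y) := by
      rw [h2]
      constructor
      · rintro ⟨h3, h4⟩
        have h5 : x n = 1 := by simpa using h3
        exact ⟨h4, by omega⟩
      · rintro ⟨h3, h4⟩
        have h5 : x n = 1 := by omega
        exact ⟨by simpa using h5, h3⟩
    simp only [this]

theorem dn_eq (hpm : ∀ n, x n = 1 ∨ x n = -1) (hβ : ∀ n, β n = decide (x n = 1)) (y : ℤ)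
    (n : ℕ) : dn (hl β n) y = xiD (walk x) y n := by
  induction n with
  | zero => simp [hl, dn, xiD]
  | succ n ih =>
    show dn (β n :: hl β n) y = _
    unfold xiD
    rw [dn_cons, ih, count_succ, S_eq hpm hβ n, hβ n, Nat.add_sub_cancel]
    unfold xiD
    congr 1
    have h2 : walk x (n + 1) = walk x n + x n := by unfold walk; rw [Finset.sum_range_succ]
    have : (decide (x n = 1) = false ∧ walk x n = y + 1) ↔
        (walk x n = y + 1 ∧ walk x (n + 1) = y) := by
      rw [h2]
      constructor
      · rintro ⟨h3, h4⟩
        have h5 : x n ≠ 1 := by simpa using h3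
        have h6 := (hpm n).resolve_left h5
        exact ⟨h4, by omega⟩
      · rintro ⟨h3, h4⟩
        have h5 : x n ≠ 1 := by omega
        exact ⟨by simpa using h5, h3⟩
    simp only [this]

theorem favorite_eq (hpm : ∀ n, x n = 1 ∨ x n = -1) (hβ : ∀ n, β n = decide (x n = 1)) (n : ℕ) :
    favorite (walk x) n = K (hl β n) := by
  rw [← K_eq]
  have e : ∀ y, xiStar (walk x) y n = xiS (hl β n) y := by
    intro y
    unfold xiStar xiS
    rw [up_eq hpm hβ, dn_eq hpm hβ]
  unfold favorite
  simp only [e]

end

/-- **Almost surely there are exactly three favorite one-side sites at infinitely many times.** -/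
theorem result.{w} : ∀ (Ω : Type w) (m : MeasurableSpace Ω) (P : @Measure Ω m) (X : ℕ → Ω → ℤ),
    @IsFairSteps Ω m P X →
      ∀ᵐ ω ∂P, {n : ℕ | 1 ≤ n ∧ (favorite (walk (fun k => X k ω)) n).ncard = 3}.Infinite := by
  intro Ω m P X hX
  have hX' : IsSteps P X := ⟨hX.prob, hX.meas, hX.indep, hX.plus, hX.minus⟩
  filter_upwards [ae_pm hX', never_null hX' LdL W_LdL, never_null hX' LdR W_LdR,
    never_null hX' GI W_GI] with ω h1 h2 h3 h4
  have h5 := three_infinite (sg X ω) h2 h3 h4
  have h6 : {n : ℕ | (K (hl (sg X ω) n)).ncard = 3} \ {0} ⊆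
      {n : ℕ | 1 ≤ n ∧ (favorite (walk (fun k => X k ω)) n).ncard = 3} := by
    rintro n ⟨hn1, hn2⟩
    refine ⟨Nat.one_le_iff_ne_zero.2 hn2, ?_⟩
    rw [favorite_eq (x := fun k => X k ω) (β := sg X ω) h1 (fun n => rfl)]
    exact hn1
  exact (h5.diff (Set.finite_singleton 0)).mono h6

end Pool.Agent.Results.MP_cfdc6e_pr.ThreeFavorite
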